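import Pool.Agent.H.MP_ce2c94_gt.SurfB

/-!
# Uniqueness of the Angenent torus among tori of revolution

A closed embedded self-shrinking torus in `ℝ³` which is obtained by rotating a simple closed
profile curve in an open half plane about the line through the origin bounding it (an Angenent
torus) is unique up to orthogonal transformations. No symmetry of the profile curve is assumed.
-/

namespace Pool.Agent.Results.MP_ce2c94_gt.RotationalTorusUnique

/-- Any two closed embedded self-shrinking tori of revolution in `ℝ³` differ by a linear
isometry. -/
theorem result (S₁ S₂ : Set AT.E3) (h₁ : AT.IsRotTorus S₁) (h₂ : AT.IsRotTorus S₂) :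
    ∃ Φ : AT.E3 ≃ₗᵢ[ℝ] AT.E3, Φ '' S₁ = S₂ :=
  AT.surface_unique_rot h₁ h₂

end Pool.Agent.Results.MP_ce2c94_gt.RotationalTorusUnique
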