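import Pool.Agent.H.MP_ce2c94_gt.D3Def
import Pool.Agent.H.MP_ce2c94_gt.ck.Two

set_option autoImplicit false

/-!
# Two shrinking tori

There are two closed embedded genus one self-shrinkers in space which are not congruent.
-/

namespace Pool.Agent.Results.MP_ce2c94_gt.TwoShrinkingTori

open D3

/-- There are two closed, embedded, genus one self-shrinkers in space such that no orthogonal
transformation maps one onto the other. -/
theorem result : ∃ S T : Set E3, IsShrinkingTorus S ∧ IsShrinkingTorus T ∧
      ∀ g : E3 ≃ₗᵢ[ℝ] E3, g '' S ≠ T :=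
  Pool.MP_ce2c94_gt.two_tori

end Pool.Agent.Results.MP_ce2c94_gt.TwoShrinkingTori
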